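import Pool.Agent.Helper94.PQ.StmtsT
import Pool.Agent.Helper66.PQ.Lagr
import Pool.Agent.Helper81.AbMot.FE

/-!
# HTG: the determinant on decomposition groups
-/

set_option autoImplicit false

open NumberField
open scoped Classical Pointwise

namespace PQ20

open BKA PQ AbMot

/-- the absolute Galois group is transitive on the primes over a place -/
theorem trans_over {F : Type} [Field F] [NumberField F] (v : Pl F) (𝔓 𝔔 : Ideal (Zb F))
    (h1 : Over v 𝔓) (h2 : Over v 𝔔) :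
    ∃ g : Gal F, ∀ x y : Zb F, (y : AlgebraicClosure F) = g (x : AlgebraicClosure F) →
      (x ∈ 𝔓 ↔ y ∈ 𝔔) := by
  have : IsGalois F (AlgebraicClosure F) := inferInstance
  have := wc_isInvariant (K := F) (Ω := AlgebraicClosure F)
  have := wc_comm (K := F) (Ω := AlgebraicClosure F)
  let : TopologicalSpace (𝓞 (AlgebraicClosure F)) := ⊥
  have : DiscreteTopology (𝓞 (AlgebraicClosure F)) := ⟨rfl⟩
  have : ContinuousSMul (Gal F) (𝓞 (AlgebraicClosure F)) := by
    rw [continuousSMul_iff_stabilizer_isOpen]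
    intro x
    have h := stabilizer_isOpen_of_isIntegral (K := F) (L := AlgebraicClosure F)
      (x : AlgebraicClosure F)
    have e : (MulAction.stabilizer (Gal F) x : Set (Gal F))
        = (MulAction.stabilizer (Gal F) (x : AlgebraicClosure F) : Set (Gal F)) := by
      ext g
      constructor
      · intro hg
        exact congrArg (fun z : 𝓞 (AlgebraicClosure F) => (z : AlgebraicClosure F)) hg
      · intro hg
        exact RingOfIntegers.ext hg
    rw [e]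
    exact h
  let e : 𝓞 (AlgebraicClosure F) →+* Zb F :=
    { toFun := fun x => ⟨(x : AlgebraicClosure F), x.isIntegral_coe⟩
      map_one' := rfl
      map_mul' := fun _ _ => rfl
      map_zero' := rfl
      map_add' := fun _ _ => rfl }
  let P : Ideal (𝓞 (AlgebraicClosure F)) := 𝔓.comap e
  let Q : Ideal (𝓞 (AlgebraicClosure F)) := 𝔔.comap e
  have hP' := h1.1
  have hQ' := h2.1
  have hP : P.IsPrime := Ideal.comap_isPrime _ _
  have hQ : Q.IsPrime := Ideal.comap_isPrime _ _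
  have hunder : P.under (𝓞 F) = Q.under (𝓞 F) := by
    ext x
    have a1 : x ∈ P.under (𝓞 F) ↔ e (algebraMap (𝓞 F) (𝓞 (AlgebraicClosure F)) x) ∈ 𝔓 := Iff.rfl
    have a2 : x ∈ Q.under (𝓞 F) ↔ e (algebraMap (𝓞 F) (𝓞 (AlgebraicClosure F)) x) ∈ 𝔔 := Iff.rfl
    rw [a1, a2, ← h1.2 x _ rfl, ← h2.2 x _ rfl]
  obtain ⟨g, hg⟩ := Algebra.IsInvariant.exists_smul_of_under_eq_of_profinite
    (A := 𝓞 F) (B := 𝓞 (AlgebraicClosure F)) (G := Gal F) P Q hunder
  refine ⟨g, fun x y hxy => ?_⟩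
  let x' : 𝓞 (AlgebraicClosure F) := ⟨(x : AlgebraicClosure F), x.2⟩
  have b1 : x ∈ 𝔓 ↔ x' ∈ P := Iff.rfl
  have b2 : e (g • x') = y := Subtype.ext hxy.symm
  have b3 : y ∈ 𝔔 ↔ g • x' ∈ Q := by
    rw [← b2]
    rfl
  rw [b1, b3, hg]
  exact (Ideal.smul_mem_pointwise_smul_iff).symm

/-- the statement for the prime of the Hodge–Tate property -/
theorem htg_aux (F E : Type) [Field F] [NumberField F] [Field E] [NumberField E] (r : ℕ) (m : ℤ)
    (δ : F) (b : E) (hb : b ≠ 0) (ℓ : ℕ) [Fact ℓ.Prime] (R : RealT F E (2 * r) m δ b ℓ)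
    (𝔓 : Ideal (Zb F)) (hHT : HodgeTateT (ℓ := ℓ) R.K (fun i => (R.orth i).ρ)
      (fun i => (R.orth i).B) 𝔓)
    (τ : E →+* AlgebraicClosure F) (y t : AlgebraicClosure F)
    (hy : y ^ 2 = algebraMap F (AlgebraicClosure F) δ) (ht : t ^ 2 = τ ((-1) ^ r * b))
    (σ : Gal F) (hσ : ∀ x y : Zb F, (y : AlgebraicClosure F) = σ (x : AlgebraicClosure F) →
        (x ∈ 𝔓 ↔ y ∈ 𝔓)) (hτ : ∀ x, σ (τ x) = τ x) : σ (t * y) = t * y := by
  obtain ⟨C, _, _, _, j, act, W, hW, hD⟩ := hHT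
  obtain ⟨a1, a2, a3⟩ := hD σ hσ
  obtain ⟨⟨i, τ1⟩, he, huniq⟩ := R.ext C (j.comp τ)
  simp only [RingHom.comp_apply] at he huniq
  set B := (R.orth i).B with hB
  -- the action fixes `τ1`
  let τ2 : R.K i →ₐ[ℚ_[ℓ]] C :=
    { (act σ).comp (τ1 : R.K i →+* C) with
      commutes' := fun x => by
        show act σ (τ1 (algebraMap ℚ_[ℓ] (R.K i) x)) = _
        rw [τ1.commutes]
        exact a1 x }
  have hτ2 : ∀ x, τ2 x = act σ (τ1 x) := fun x => rfl
  have h21 : (⟨i, τ2⟩ : Σ i : R.I, (R.K i →ₐ[ℚ_[ℓ]] C)) = ⟨i, τ1⟩ := by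
    apply huniq
    intro x
    show τ2 (R.e i x) = j (τ x)
    rw [hτ2, he, a2, hτ]
  have h22 : τ2 = τ1 := by
    rw [Sigma.mk.injEq] at h21
    exact eq_of_heq h21.2
  have hfix : ∀ z, act σ (τ1 z) = τ1 z := fun z => by rw [← hτ2, h22]
  -- the invariant of the subspace
  let e : Fin r ⊕ Fin r ≃ Fin (2 * r) := finSumFinEquiv.trans (finCongr (two_mul r).symm)
  obtain ⟨T, hT0, hT, hg⟩ := PQ66.lagr' e (B.map τ1) (by rw [← Matrix.transpose_map, (R.orth i).symm])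
    (by
      have : (B.map τ1).det = τ1 B.det := (RingHom.map_det (τ1 : R.K i →+* C) _).symm
      rw [this, Ne, map_eq_zero]
      exact (R.orth i).nondeg) (W i τ1) (hW i τ1)
  rw [Fintype.card_fin] at hT hg
  have hdB : (B.map τ1).det = τ1 B.det := (RingHom.map_det (τ1 : R.K i →+* C) _).symm
  set M : Matrix (Fin (2 * r)) (Fin (2 * r)) (R.K i) :=
    (((R.orth i).ρ σ : Matrix.GeneralLinearGroup (Fin (2 * r)) (R.K i)) :
      Matrix (Fin (2 * r)) (Fin (2 * r)) (R.K i)) with hM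
  set u : ℚ_[ℓ]ˣ := cyc F ℓ σ with hu
  set μ : ℚ_[ℓ] := ((u ^ (-(2 * m)) : ℚ_[ℓ]ˣ) : ℚ_[ℓ]) with hμ
  set μC : C := τ1 (algebraMap ℚ_[ℓ] (R.K i) μ) with hμC
  have hμ0 : μC ≠ 0 := by
    rw [hμC, Ne, map_eq_zero, map_eq_zero]
    exact Units.ne_zero _
  have h5 : μC ^ r * T = τ1 M.det * act σ T := by
    have h6 : (M.map τ1).det = τ1 M.det := (RingHom.map_det (τ1 : R.K i →+* C) _).symm
    rw [← h6]
    refine hg (M.map τ1) (act σ) μC ?_ ?_ ?_
    · have h6 : (M.transpose * B * M).map τ1 =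
          ((algebraMap ℚ_[ℓ] (R.K i) μ) • B).map τ1 := by
        rw [(R.orth i).inv σ]
      rw [Matrix.map_mul, Matrix.map_mul, Matrix.transpose_map] at h6
      rw [h6]
      ext a c
      rw [Matrix.map_apply, Matrix.smul_apply, Matrix.smul_apply, Matrix.map_apply,
        smul_eq_mul, smul_eq_mul, map_mul]
    · ext a c
      exact hfix _
    · exact a3 i τ1 τ1 hfix
  have h7 : ((u ^ (-(((2 * r : ℕ) : ℤ) * m)) : ℚ_[ℓ]ˣ) : ℚ_[ℓ]) = μ ^ r := by
    rw [hμ, ← Units.val_pow_eq_pow_val, ← zpow_natCast, ← zpow_mul]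
    congr 2
    push_cast
    ring
  -- the discriminant
  obtain ⟨s, hs0, hs⟩ := R.disc i
  have hs1 : τ1 s ≠ 0 := by
    rw [Ne, map_eq_zero]
    exact hs0
  have h9 : (T * τ1 s * j t) ^ 2 = 1 := by
    have h10 : j t ^ 2 = (-1) ^ r * j (τ b) := by
      rw [← map_pow, ht, map_mul, map_mul, map_pow, map_pow, map_neg, map_neg, map_one, map_one]
    have h11 : T ^ 2 * (j (τ b) * τ1 s ^ 2) = (-1) ^ r := by
      rw [← he b, ← map_pow, ← map_mul, ← hs, ← hB, ← hdB]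
      exact hT
    calc (T * τ1 s * j t) ^ 2 = T ^ 2 * τ1 s ^ 2 * j t ^ 2 := by ring
      _ = (-1) ^ r * (T ^ 2 * (j (τ b) * τ1 s ^ 2)) := by rw [h10]; ring
      _ = (-1) ^ r * (-1) ^ r := by rw [h11]
      _ = 1 := by rw [← mul_pow]; norm_num
  have h10 : act σ (T * τ1 s * j t) = T * τ1 s * j t := by
    rw [sq] at h9
    rcases mul_self_eq_one_iff.1 h9 with h11 | h11
    · rw [h11, map_one]
    · rw [h11, map_neg, map_one]
  rw [map_mul, map_mul, hfix, a2] at h10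
  rcases (R.orth i).det σ y hy with ⟨h11, h12⟩ | ⟨h11, h12⟩
  · rw [← hM, ← hu, h7] at h12
    rw [h12, map_pow, map_pow, ← hμC] at h5
    have h13 : T = act σ T := mul_left_cancel₀ (pow_ne_zero r hμ0) h5
    rw [← h13] at h10
    have h14 : j (σ t) = j t := mul_left_cancel₀ (mul_ne_zero hT0 hs1) h10
    rw [map_mul, h11, j.injective h14]
  · rw [← hM, ← hu, h7] at h12
    rw [h12, map_neg, map_pow, map_pow, ← hμC] at h5
    have h13 : act σ T = -T := by
      have h14 : μC ^ r * (act σ T) = μC ^ r * (-T) := by linear_combination h5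
      exact mul_left_cancel₀ (pow_ne_zero r hμ0) h14
    rw [h13] at h10
    have h14 : j (σ t) = j (-t) := by
      refine mul_left_cancel₀ (mul_ne_zero hT0 hs1) ?_
      rw [map_neg]
      linear_combination -h10
    rw [map_mul, h11, j.injective h14]
    ring

end PQ20

open BKA in
theorem PQ.htg : PQ.ST_HTG := by
  intro F E _ _ _ _ r m δ b hδ hb ℓ _ R v 𝔓 hv hO τ y t hy ht σ hσ hτ
  obtain ⟨𝔔, hQ, hHT⟩ := R.hodgeTate v hv
  obtain ⟨g, hg⟩ := PQ20.trans_over v 𝔓 𝔔 hO hQ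
  have hint : ∀ (h : Gal F) (x : Zb F), ∃ z : Zb F, (z : AlgebraicClosure F) =
      h (x : AlgebraicClosure F) := fun h x =>
    ⟨⟨h (x : AlgebraicClosure F), x.2.map (h : AlgebraicClosure F →+* AlgebraicClosure F).toIntAlgHom⟩,
      rfl⟩
  have key := PQ20.htg_aux F E r m δ b hb ℓ R 𝔔 hHT ((g : AlgebraicClosure F →+*
    AlgebraicClosure F).comp τ) (g y) (g t)
    (by rw [← map_pow, hy, g.commutes]) (by rw [← map_pow, ht]; rfl) (g * σ * g⁻¹) (by
      intro x z hxz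
      obtain ⟨x1, hx1⟩ := hint g⁻¹ x
      obtain ⟨x2, hx2⟩ := hint σ x1
      have e1 : x ∈ 𝔔 ↔ x1 ∈ 𝔓 := by
        refine (hg x1 x ?_).symm
        rw [hx1]
        exact (g.apply_symm_apply _).symm
      have e2 : x1 ∈ 𝔓 ↔ x2 ∈ 𝔓 := hσ x1 x2 hx2
      have e3 : x2 ∈ 𝔓 ↔ z ∈ 𝔔 := by
        refine hg x2 z ?_
        rw [hxz, hx2, hx1]
        rfl
      rw [e1, e2, e3]) (by
      intro x
      show g (σ (g.symm (g (τ x)))) = g (τ x)
      rw [g.symm_apply_apply, hτ])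
  have e1 : (g * σ * g⁻¹) (g t * g y) = g (σ (t * y)) := by
    show g (σ (g.symm (g t * g y))) = _
    rw [← map_mul, g.symm_apply_apply]
  rw [e1, ← map_mul] at key
  exact g.injective key
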