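import Pool.Agent.Helper94.PQ.StmtsT

/-!
# NRM: the norm of `δ` is a square
-/

set_option autoImplicit false

open Module NumberField
open scoped TensorProduct ComplexConjugate

namespace PQ20

section Det

variable {F : Type} [Field F] [NumberField F]

/-- the determinant of a combination of regular representations as a product over embeddings -/
theorem det_comb {n : ℕ} (b : Basis (Fin n) ℚ F) (hn : n = finrank ℚ F) (u : Fin n → ℂ) :
    (∑ k, u k • (Algebra.leftMulMatrix b (b k)).map (algebraMap ℚ ℂ)).det =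
      ∏ σ : F →ₐ[ℚ] ℂ, ∑ k, u k * σ (b k) := by
  classical
  have hcard : Fintype.card (Fin n) = Fintype.card (F →ₐ[ℚ] ℂ) := by
    rw [AlgHom.card, Fintype.card_fin, hn]
  let e : Fin n ≃ (F →ₐ[ℚ] ℂ) := Fintype.equivOfCardEq hcard
  set V : Matrix (Fin n) (Fin n) ℂ := Matrix.of fun s i => e s (b i) with hV
  have hVdet : V.det ≠ 0 := by
    intro h0
    have h1 := Algebra.discr_eq_det_embeddingsMatrixReindex_pow_two ℚ ℂ (⇑b) e
    have h2 : Algebra.embeddingsMatrixReindex ℚ ℂ (⇑b) e = V.transpose := by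
      ext i j
      simp [Algebra.embeddingsMatrixReindex, Algebra.embeddingsMatrix, hV]
    rw [h2, Matrix.det_transpose, h0] at h1
    have h3 := Algebra.discr_not_zero_of_basis ℚ b
    apply h3
    have h4 : algebraMap ℚ ℂ (Algebra.discr ℚ ⇑b) = algebraMap ℚ ℂ 0 := by
      rw [h1, map_zero]
      ring
    exact (algebraMap ℚ ℂ).injective h4
  have hkey : ∀ k, V * (Algebra.leftMulMatrix b (b k)).map (algebraMap ℚ ℂ) =
      Matrix.diagonal (fun s => e s (b k)) * V := by
    intro k
    ext s j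
    rw [Matrix.mul_apply, Matrix.diagonal_mul]
    simp only [hV, Matrix.of_apply, Matrix.map_apply]
    have h1 : b k * b j = ∑ i, (Algebra.leftMulMatrix b (b k) i j) • b i := by
      conv_lhs => rw [← b.sum_repr (b k * b j)]
      refine Finset.sum_congr rfl fun i _ => ?_
      rw [Algebra.leftMulMatrix_eq_repr_mul]
    rw [← map_mul, h1, map_sum]
    refine Finset.sum_congr rfl fun i _ => ?_
    rw [Algebra.smul_def, map_mul, AlgHom.commutes, mul_comm]
  set A := ∑ k, u k • (Algebra.leftMulMatrix b (b k)).map (algebraMap ℚ ℂ) with hA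
  have h1 : V * A = Matrix.diagonal (fun s => ∑ k, u k * e s (b k)) * V := by
    rw [hA, Matrix.mul_sum]
    have h2 : ∀ k, V * (u k • (Algebra.leftMulMatrix b (b k)).map (algebraMap ℚ ℂ)) =
        Matrix.diagonal (fun s => u k * e s (b k)) * V := by
      intro k
      rw [Matrix.mul_smul, hkey k, ← Matrix.smul_mul]
      congr 1
      ext s j
      by_cases h : s = j
      · subst h
        simp
      · simp [h]
    rw [Finset.sum_congr rfl fun k _ => h2 k, ← Matrix.sum_mul]
    congr 1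
    ext s j
    rw [Matrix.sum_apply]
    by_cases h : s = j
    · subst h
      simp
    · simp [h]
  have h2 := congrArg Matrix.det h1
  rw [Matrix.det_mul, Matrix.det_mul, mul_comm, Matrix.det_diagonal] at h2
  have h3 := mul_right_cancel₀ hVdet h2
  rw [h3]
  exact Fintype.prod_equiv e _ _ fun s => rfl

/-- products over the embeddings of a totally complex field of a function compatible with
complex conjugation -/
theorem prod_pos [IsTotallyComplex F] (a : (F →ₐ[ℚ] ℂ) → ℂ) (ha : ∀ σ, a σ ≠ 0)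
    (hc : ∀ σ : F →ₐ[ℚ] ℂ, a (((Complex.conjAe.restrictScalars ℚ).toAlgHom).comp σ) =
      conj (a σ)) :
    ∃ t : ℝ, 0 < t ∧ ∏ σ, a σ = (t : ℂ) := by
  classical
  refine ⟨∏ σ, ‖a σ‖, Finset.prod_pos fun σ _ => norm_pos_iff.2 (ha σ), ?_⟩
  have h1 : ∏ σ, (a σ / (‖a σ‖ : ℂ)) = 1 := by
    refine Finset.prod_involution (fun σ _ => ((Complex.conjAe.restrictScalars ℚ).toAlgHom).comp σ)
      ?_ ?_ ?_ ?_
    · intro σ _
      rw [hc, Complex.norm_conj]
      have h0 : (‖a σ‖ : ℂ) ≠ 0 := by
        exact_mod_cast (norm_pos_iff.2 (ha σ)).ne'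
      rw [div_mul_div_comm, Complex.mul_conj, Complex.normSq_eq_norm_sq]
      push_cast
      rw [← sq]
      exact div_self (pow_ne_zero 2 h0)
    · intro σ _ _ h
      apply IsTotallyComplex.complexEmbedding_not_isReal (σ : F →+* ℂ)
      rw [ComplexEmbedding.isReal_iff]
      ext x
      have := congrArg (fun τ : F →ₐ[ℚ] ℂ => τ x) h
      exact this
    · intro σ _
      exact Finset.mem_univ _
    · intro σ _
      ext x
      exact Complex.conj_conj (σ x)
  rw [Finset.prod_div_distrib] at h1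
  have h2 : (∏ σ, (‖a σ‖ : ℂ)) ≠ 0 := by
    refine Finset.prod_ne_zero_iff.2 fun σ _ => ?_
    exact_mod_cast (norm_pos_iff.2 (ha σ)).ne'
  rw [div_eq_one_iff_eq h2] at h1
  rw [h1]
  push_cast
  rfl

end Det

/-- an element with equal conjugates is rational -/
theorem rational_of_conj {E : Type} [Field E] [NumberField E] (q : E) (z : ℂ)
    (h : ∀ y : E →ₐ[ℚ] ℂ, y q = z) : ∃ s : ℚ, algebraMap ℚ E s = q := by
  classical
  have h1 := trace_eq_sum_embeddings (K := ℚ) (L := E) ℂ (x := q)
  rw [Finset.sum_congr rfl fun y _ => h y, Finset.sum_const, Finset.card_univ, AlgHom.card,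
    nsmul_eq_mul] at h1
  have hd : (finrank ℚ E : ℚ) ≠ 0 := by
    exact_mod_cast (finrank_pos (R := ℚ) (M := E)).ne'
  refine ⟨Algebra.trace ℚ E q / finrank ℚ E, ?_⟩
  have hne : Nonempty (E →ₐ[ℚ] ℂ) := by
    rw [← Fintype.card_pos_iff, AlgHom.card]
    exact finrank_pos
  obtain ⟨y⟩ := hne
  apply y.toRingHom.injective
  show y (algebraMap ℚ E _) = y q
  rw [y.commutes, h y, map_div₀, h1]
  have hd' : (finrank ℚ E : ℂ) ≠ 0 := by exact_mod_cast hd
  rw [map_natCast, mul_comm, mul_div_assoc, div_self hd', mul_one]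

end PQ20

open PQ20 in
theorem PQ.nrm : PQ.ST_NRM := by
  classical
  intro F E _ _ _ _ _ _ δ b r hδ hb hε
  obtain ⟨ε, hε⟩ := hε
  set c : E := (-1) ^ r * b with hcdef
  set n := finrank ℚ F with hn
  set bs : Basis (Fin n) ℚ F := Module.finBasis ℚ F with hbs
  set B : Basis (Fin n) E (E ⊗[ℚ] F) := Algebra.TensorProduct.basis E bs with hB
  set u : Fin n → E := fun k => B.repr ε k with hu
  have hεu : ε = ∑ k, u k ⊗ₜ[ℚ] bs k := by
    conv_lhs => rw [← B.sum_repr ε]
    refine Finset.sum_congr rfl fun k _ => ?_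
    rw [hB, Algebra.TensorProduct.basis_apply, TensorProduct.smul_tmul', smul_eq_mul, mul_one]
  set M : Matrix (Fin n) (Fin n) E :=
    ∑ k, u k • (Algebra.leftMulMatrix bs (bs k)).map (algebraMap ℚ E) with hM
  set η : E := M.det with hη
  set h : (E →ₐ[ℚ] ℂ) → (F →ₐ[ℚ] ℂ) → ℂ := fun y x =>
    Algebra.TensorProduct.lift y x (fun _ _ => Commute.all _ _) ε with hh
  have hyη : ∀ y : E →ₐ[ℚ] ℂ, y η = ∏ x, h y x := by
    intro y
    have h1 : ∀ x, h y x = ∑ k, y (u k) * x (bs k) := by
      intro x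
      simp only [hh]
      rw [hεu, map_sum]
      exact Finset.sum_congr rfl fun k _ => Algebra.TensorProduct.lift_tmul _ _ _ _ _
    rw [Finset.prod_congr rfl fun x _ => h1 x, ← det_comb bs hn (fun k => y (u k)), hη]
    show y.toRingHom M.det = _
    rw [RingHom.map_det]
    congr 1
    rw [hM, map_sum]
    refine Finset.sum_congr rfl fun k _ => ?_
    ext i j
    simp [Matrix.smul_apply, Matrix.map_apply]
  have hsq : ∀ y x, h y x * h y x = y c * x δ := by
    intro y x
    simp only [hh]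
    rw [← map_mul, hε]
    exact Algebra.TensorProduct.lift_tmul _ _ _ _ _
  have hyc : ∀ y : E →ₐ[ℚ] ℂ, ∃ t : ℝ, 0 < t ∧ y c = ((-1) ^ r * t : ℝ) := by
    intro y
    refine ⟨(y b).re, hb y.toRingHom, ?_⟩
    have h1 : conj (y b) = y b := by
      have := IsTotallyReal.complexEmbedding_isReal (y : E →+* ℂ)
      rw [ComplexEmbedding.isReal_iff] at this
      exact congrArg (fun τ : E →+* ℂ => τ b) this
    have h2 : ((y b).re : ℂ) = y b := Complex.conj_eq_iff_re.1 h1
    rw [hcdef, map_mul, map_pow, map_neg, map_one]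
    push_cast
    rw [h2]
  have hc0 : ∀ y : E →ₐ[ℚ] ℂ, y c ≠ 0 := by
    intro y
    obtain ⟨t, ht, h1⟩ := hyc y
    rw [h1, Complex.ofReal_ne_zero]
    exact mul_ne_zero (pow_ne_zero _ (by norm_num)) ht.ne'
  have hδ0 : ∀ x : F →ₐ[ℚ] ℂ, x δ ≠ 0 := by
    intro x hx
    exact hδ (x.toRingHom.injective (by rw [map_zero]; exact hx))
  have hh0 : ∀ y x, h y x ≠ 0 := by
    intro y x h0
    have := hsq y x
    rw [h0, mul_zero] at this
    exact mul_ne_zero (hc0 y) (hδ0 x) this.symm
  have hconj : ∀ (y : E →ₐ[ℚ] ℂ) (x : F →ₐ[ℚ] ℂ),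
      h y (((Complex.conjAe.restrictScalars ℚ).toAlgHom).comp x) = conj (h y x) := by
    intro y x
    have h1 : ∀ z : E, conj (y z) = y z := by
      intro z
      have := IsTotallyReal.complexEmbedding_isReal (y : E →+* ℂ)
      rw [ComplexEmbedding.isReal_iff] at this
      exact congrArg (fun τ : E →+* ℂ => τ z) this
    simp only [hh]
    rw [hεu, map_sum, map_sum, map_sum]
    refine Finset.sum_congr rfl fun k _ => ?_
    rw [Algebra.TensorProduct.lift_tmul, Algebra.TensorProduct.lift_tmul, map_mul, h1]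
    rfl
  -- the norm of δ
  set ν : ℚ := Algebra.norm ℚ δ with hν
  have hνx : ∏ x : F →ₐ[ℚ] ℂ, x δ = algebraMap ℚ ℂ ν :=
    (Algebra.norm_eq_prod_embeddings ℚ ℂ δ).symm
  have hη2 : ∀ y : E →ₐ[ℚ] ℂ, y η * y η = y c ^ n * algebraMap ℚ ℂ ν := by
    intro y
    rw [hyη, ← Finset.prod_mul_distrib, Finset.prod_congr rfl fun x _ => hsq y x,
      Finset.prod_mul_distrib, Finset.prod_const, Finset.card_univ, AlgHom.card, hνx]
  have hposη : ∀ y y' : E →ₐ[ℚ] ℂ, ∃ t : ℝ, 0 < t ∧ y η * y' η = (t : ℂ) := by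
    intro y y'
    rw [hyη, hyη, ← Finset.prod_mul_distrib]
    refine prod_pos _ (fun x => mul_ne_zero (hh0 y x) (hh0 y' x)) ?_
    intro x
    rw [hconj, hconj, map_mul]
  -- even degree
  set m := InfinitePlace.nrComplexPlaces F with hm
  have hnm : n = 2 * m := IsTotallyComplex.finrank F
  have hcE : c ≠ 0 := by
    intro h0
    have hne : Nonempty (E →ₐ[ℚ] ℂ) := by
      rw [← Fintype.card_pos_iff, AlgHom.card]
      exact finrank_pos
    obtain ⟨y⟩ := hne
    exact hc0 y (by rw [h0, map_zero])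
  set q : E := η / c ^ m with hq
  have hyq2 : ∀ y : E →ₐ[ℚ] ℂ, y q * y q = algebraMap ℚ ℂ ν := by
    intro y
    rw [hq, map_div₀, map_pow, div_mul_div_comm, hη2, hnm, ← pow_add, ← two_mul]
    rw [mul_comm, mul_div_assoc, div_self (pow_ne_zero _ (hc0 y)), mul_one]
  have hyq : ∀ y y' : E →ₐ[ℚ] ℂ, y q = y' q := by
    intro y y'
    obtain ⟨t, ht, h1⟩ := hposη y y'
    obtain ⟨s, hs, h2⟩ := hyc y
    obtain ⟨s', hs', h3⟩ := hyc y'
    have h4 : y q * y' q = ((t / (s * s') ^ m : ℝ) : ℂ) := by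
      rw [hq, map_div₀, map_div₀, map_pow, map_pow, div_mul_div_comm, h1, ← mul_pow, h2, h3]
      have h5 : (((-1) ^ r * s : ℝ) : ℂ) * (((-1) ^ r * s' : ℝ) : ℂ) = ((s * s' : ℝ) : ℂ) := by
        rw [← Complex.ofReal_mul]
        congr 1
        have h6 : ((-1 : ℝ) ^ r) * (-1) ^ r = 1 := by
          rw [← mul_pow]
          norm_num
        linear_combination (s * s') * h6
      rw [h5]
      push_cast
      ring
    have h5 : (y q - y' q) * (y q + y' q) = 0 := by
      linear_combination hyq2 y - hyq2 y'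
    rcases mul_eq_zero.1 h5 with h6 | h6
    · exact sub_eq_zero.1 h6
    · exfalso
      have h7 : y' q = - y q := by linear_combination h6
      -- the square of y q is positive and minus itself is positive
      have h8 : ∃ w : ℝ, 0 < w ∧ y q * y q = (w : ℂ) := by
        obtain ⟨t', ht', h1'⟩ := hposη y y
        refine ⟨t' / (s * s) ^ m, by positivity, ?_⟩
        rw [hq, map_div₀, map_pow, div_mul_div_comm, h1', ← mul_pow, h2]
        have h5 : (((-1) ^ r * s : ℝ) : ℂ) * (((-1) ^ r * s : ℝ) : ℂ) = ((s * s : ℝ) : ℂ) := by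
          rw [← Complex.ofReal_mul]
          congr 1
          have h6 : ((-1 : ℝ) ^ r) * (-1) ^ r = 1 := by
            rw [← mul_pow]
            norm_num
          linear_combination (s * s) * h6
        rw [h5]
        push_cast
        ring
      obtain ⟨w, hw, h9⟩ := h8
      rw [h7, mul_neg, h9, ← Complex.ofReal_neg] at h4
      have h10 : -w = t / (s * s') ^ m := Complex.ofReal_injective h4
      have h11 : 0 < t / (s * s') ^ m := by positivity
      linarith
  have hne : Nonempty (E →ₐ[ℚ] ℂ) := by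
    rw [← Fintype.card_pos_iff, AlgHom.card]
    exact finrank_pos
  obtain ⟨y⟩ := hne
  obtain ⟨s, hs⟩ := rational_of_conj q (y q) (fun y' => hyq y' y)
  refine ⟨s, ?_⟩
  have h1 := hyq2 y
  rw [← hs, y.commutes, ← map_mul] at h1
  exact ((algebraMap ℚ ℂ).injective h1).symm
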