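import Mathlib

/-!
# Joint eigenspaces of commuting operators of order `p` (for ODDU)
-/

set_option autoImplicit false

open Module

namespace PQ20

section Joint

variable {k V E : Type*} [Field k] [AddCommGroup V] [Module k V]

/-- joint eigenspace -/
def J (f : E → Module.End k V) (χ : E → k) : Submodule k V := ⨅ g, (f g).eigenspace (χ g)

theorem mem_J {f : E → Module.End k V} {χ : E → k} {x : V} :
    x ∈ J f χ ↔ ∀ g, f g x = χ g • x := by
  simp only [J, Submodule.mem_iInf, Module.End.mem_eigenspace_iff]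

theorem indep (f : E → Module.End k V) (hc : ∀ g h, Commute (f g) (f h)) :
    iSupIndep (J f) :=
  (Module.End.independent_iInf_maxGenEigenspace_of_forall_mapsTo f
    (fun i j φ => Module.End.mapsTo_maxGenEigenspace_of_comm (hc j i) φ)).mono
    (fun χ => iInf_mono fun g => (f g).genEigenspace_le_maximal (χ g) 1)

theorem eig_top (f : Module.End k V) (p : ℕ) (hp : 0 < p) (ζ : k) (hζ : IsPrimitiveRoot ζ p)
    (hp0 : (p : k) ≠ 0) (hf : f ^ p = 1) : ⨆ μ, f.eigenspace μ = ⊤ := by
  rw [eq_top_iff]
  intro x _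
  set y : ℕ → V := fun i => ∑ j ∈ Finset.range p, (ζ ^ i) ^ j • (f ^ j) x with hy
  have hζ0 : ζ ≠ 0 := hζ.ne_zero hp.ne'
  have h1 : ∀ i, y i ∈ f.eigenspace ((ζ ^ i)⁻¹) := by
    intro i
    rw [Module.End.mem_eigenspace_iff]
    have h2 : (ζ ^ i) • f (y i) = y i := by
      have h3 : (ζ ^ i) • f (y i) =
          ∑ j ∈ Finset.range p, (ζ ^ i) ^ (j + 1) • (f ^ (j + 1)) x := by
        rw [hy, map_sum, Finset.smul_sum]
        refine Finset.sum_congr rfl fun j _ => ?_
        rw [map_smul, smul_smul, ← Module.End.mul_apply, ← pow_succ', ← pow_succ']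
      have h4 := Finset.sum_range_succ' (fun j => (ζ ^ i) ^ j • (f ^ j) x) p
      have h5 := Finset.sum_range_succ (fun j => (ζ ^ i) ^ j • (f ^ j) x) p
      have h6 : (ζ ^ i) ^ p = 1 := by rw [← pow_mul, mul_comm, pow_mul, hζ.pow_eq_one, one_pow]
      rw [h4] at h5
      simp only [pow_zero, hf, h6] at h5
      rw [h3]
      exact add_right_cancel h5
    rw [eq_inv_smul_iff₀ (pow_ne_zero _ hζ0), h2]
  have h2 : ∑ i ∈ Finset.range p, y i = (p : k) • x := by
    rw [hy]
    rw [Finset.sum_comm, Finset.sum_eq_single 0]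
    · simp [Nat.cast_smul_eq_nsmul]
    · intro j hj hj0
      rw [← Finset.sum_smul]
      have h3 : ∑ i ∈ Finset.range p, (ζ ^ i) ^ j = 0 := by
        have h4 : (ζ ^ j) ≠ 1 := hζ.pow_ne_one_of_pos_of_lt hj0 (Finset.mem_range.1 hj)
        have h5 := mul_geom_sum (ζ ^ j) p
        have h6 : (ζ ^ j) ^ p = 1 := by rw [← pow_mul, mul_comm, pow_mul, hζ.pow_eq_one, one_pow]
        rw [h6, sub_self, mul_eq_zero] at h5
        have h7 := h5.resolve_left (sub_ne_zero.2 h4)
        rw [← h7]
        exact Finset.sum_congr rfl fun i _ => by rw [← pow_mul, ← pow_mul, mul_comm]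
      rw [h3, zero_smul]
    · intro h
      exact absurd (Finset.mem_range.2 hp) h
  have h3 : x = (p : k)⁻¹ • ∑ i ∈ Finset.range p, y i := by
    rw [h2, smul_smul, inv_mul_cancel₀ hp0, one_smul]
  rw [h3]
  exact Submodule.smul_mem _ _ (Submodule.sum_mem _ fun i _ =>
    Submodule.mem_iSup_of_mem _ (h1 i))

theorem span_top [FiniteDimensional k V] (f : E → Module.End k V)
    (hc : ∀ g h, Commute (f g) (f h)) (p : ℕ) (hp : 0 < p) (ζ : k) (hζ : IsPrimitiveRoot ζ p)
    (hp0 : (p : k) ≠ 0) (hf : ∀ g, f g ^ p = 1) : ⨆ χ, J f χ = ⊤ := by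
  have hss : ∀ g, (f g).IsSemisimple := by
    intro g
    refine Module.End.isSemisimple_of_squarefree_aeval_eq_zero (p := Polynomial.X ^ p - Polynomial.C 1)
      (Polynomial.separable_X_pow_sub_C (1 : k) hp0 one_ne_zero).squarefree ?_
    simp [hf g]
  have h1 : ∀ g μ, (f g).maxGenEigenspace μ = (f g).eigenspace μ := fun g μ =>
    (hss g).isFinitelySemisimple.maxGenEigenspace_eq_eigenspace μ
  have h2 := Module.End.iSup_iInf_maxGenEigenspace_eq_top_of_iSup_maxGenEigenspace_eq_top_of_commute
    f (fun g h _ => hc g h) (fun g => by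
      simp only [h1]
      exact eig_top (f g) p hp ζ hζ hp0 (hf g))
  simp only [h1] at h2
  exact h2

theorem internal [FiniteDimensional k V] [DecidableEq (E → k)] (f : E → Module.End k V)
    (hc : ∀ g h, Commute (f g) (f h)) (p : ℕ) (hp : 0 < p) (ζ : k) (hζ : IsPrimitiveRoot ζ p)
    (hp0 : (p : k) ≠ 0) (hf : ∀ g, f g ^ p = 1) : DirectSum.IsInternal (J f) :=
  DirectSum.isInternal_submodule_of_iSupIndep_of_iSup_eq_top (indep f hc)
    (span_top f hc p hp ζ hζ hp0 hf)

theorem fin_sum [CharZero k] [FiniteDimensional k V] {ι : Type*} [DecidableEq ι]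
    (N : ι → Submodule k V) (h : DirectSum.IsInternal N) (S : Finset ι)
    (hS : ∀ i, N i ≠ ⊥ → i ∈ S) : finrank k V = ∑ i ∈ S, finrank k (N i) := by
  have hN : {i | N i ≠ ⊥}.Finite := WellFoundedGT.finite_ne_bot_of_iSupIndep
    h.submodule_iSupIndep
  have h1 := LinearMap.trace_eq_sum_trace_restrict' h hN (f := LinearMap.id)
    (fun i x hx => hx)
  have h2 : ∀ i, LinearMap.restrict (LinearMap.id : V →ₗ[k] V)
      (show Set.MapsTo (LinearMap.id : V →ₗ[k] V) (N i) (N i) from fun x hx => hx) =
      LinearMap.id := fun i => by ext x; rfl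
  have h3 : (finrank k V : k) = ∑ i ∈ hN.toFinset, (finrank k (N i) : k) := by
    rw [LinearMap.trace_id] at h1
    rw [h1]
    refine Finset.sum_congr rfl fun i _ => ?_
    rw [h2, LinearMap.trace_id]
  have h4 : finrank k V = ∑ i ∈ hN.toFinset, finrank k (N i) := by exact_mod_cast h3
  rw [h4]
  refine Finset.sum_subset (fun i hi => hS i ((Set.Finite.mem_toFinset hN).1 hi)) ?_
  intro i _ hi
  have h5 : N i = ⊥ := by
    by_contra h6
    exact hi ((Set.Finite.mem_toFinset hN).2 h6)
  rw [h5]
  exact finrank_bot k V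

/-- trace zero if the nonzero blocks are moved -/
theorem trace_zero [FiniteDimensional k V] {ι : Type*} [DecidableEq ι]
    (N : ι → Submodule k V) (h : DirectSum.IsInternal N) (alt σ : ι → ι)
    (halt : ∀ i, alt i ≠ i) (hσ : ∀ i, N i ≠ ⊥ → σ i ≠ i) (f : Module.End k V)
    (hf : ∀ i, N i ≠ ⊥ → ∀ x ∈ N i, f x ∈ N (σ i)) : LinearMap.trace k V f = 0 := by
  classical
  refine LinearMap.trace_eq_zero_of_mapsTo_ne h (fun i => if N i = ⊥ then alt i else σ i) ?_ ?_
  · intro i
    split_ifs with h1
    · exact halt i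
    · exact hσ i h1
  · intro i x hx
    split_ifs with h1
    · rw [SetLike.mem_coe, h1, Submodule.mem_bot] at hx
      rw [hx, map_zero]
      exact Submodule.zero_mem _
    · exact hf i h1 x hx

/-- dimension of the fixed space of an operator of finite order whose proper powers are
traceless -/
theorem finrank_fix [CharZero k] [FiniteDimensional k V] (T : Module.End k V) (N : ℕ)
    (hN : 0 < N) (hT : T ^ N = 1)
    (ht : ∀ j, 0 < j → j < N → LinearMap.trace k V (T ^ j) = 0) :
    N * finrank k (LinearMap.ker (T - 1)) = finrank k V := by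
  have hN0 : (N : k) ≠ 0 := Nat.cast_ne_zero.2 hN.ne'
  set P : Module.End k V := (N : k)⁻¹ • ∑ j ∈ Finset.range N, T ^ j with hP
  have hpr : LinearMap.IsProj (LinearMap.ker (T - 1)) P := by
    constructor
    · intro x
      rw [LinearMap.mem_ker, ← Module.End.mul_apply, hP, mul_smul_comm]
      have h1 : (T - 1) * ∑ j ∈ Finset.range N, T ^ j = 0 := by
        rw [mul_geom_sum, hT, sub_self]
      rw [h1, smul_zero, LinearMap.zero_apply]
    · intro x hx
      have h1 : T x = x := by
        rw [LinearMap.mem_ker, LinearMap.sub_apply, Module.End.one_apply, sub_eq_zero] at hx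
        exact hx
      have h2 : ∀ j : ℕ, (T ^ j) x = x := by
        intro j
        induction j with
        | zero => rw [pow_zero, Module.End.one_apply]
        | succ j ih => rw [pow_succ, Module.End.mul_apply, h1, ih]
      rw [hP, LinearMap.smul_apply, LinearMap.sum_apply, Finset.sum_congr rfl fun j _ => h2 j,
        Finset.sum_const, Finset.card_range, ← Nat.cast_smul_eq_nsmul k, smul_smul,
        inv_mul_cancel₀ hN0, one_smul]
  have h1 := hpr.trace
  rw [hP, map_smul, map_sum, Finset.sum_eq_single 0] at h1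
  · rw [pow_zero, LinearMap.trace_one, smul_eq_mul] at h1
    have h2 : (finrank k V : k) = (N : k) * (finrank k (LinearMap.ker (T - 1)) : k) := by
      rw [← h1, ← mul_assoc, mul_inv_cancel₀ hN0, one_mul]
    exact_mod_cast h2.symm
  · intro j hj hj0
    exact ht j (Nat.pos_of_ne_zero hj0) (Finset.mem_range.1 hj)
  · intro h
    exact absurd (Finset.mem_range.2 hN) h

end Joint

/-- orbits of a permutation of exact order `M` -/
theorem cyc {X : Type*} [DecidableEq X] (σ : X → X) (M : ℕ) (hM : 0 < M) :
    ∀ (n : ℕ) (S : Finset X), S.card = n → (∀ x ∈ S, σ x ∈ S) →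
      (∀ x ∈ S, σ^[M] x = x) → (∀ x ∈ S, ∀ j, σ^[j] x = x → M ∣ j) →
      ∃ R : Finset X, R ⊆ S ∧ ∀ f : X → ℕ, (∀ x ∈ S, f (σ x) = f x) →
        ∑ x ∈ S, f x = M * ∑ x ∈ R, f x := by
  intro n
  induction n using Nat.strong_induction_on with
  | _ n ih =>
    intro S hn h1 h2 h3
    rcases S.eq_empty_or_nonempty with rfl | ⟨x, hx⟩
    · exact ⟨∅, Finset.Subset.refl _, fun f _ => by simp⟩
    have hit : ∀ j, σ^[j] x ∈ S := by
      intro j
      induction j with
      | zero => exact hx
      | succ j ihj =>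
        rw [Function.iterate_succ_apply']
        exact h1 _ ihj
    set O : Finset X := (Finset.range M).image fun j => σ^[j] x with hO
    have hOS : O ⊆ S := by
      intro y hy
      obtain ⟨j, _, rfl⟩ := Finset.mem_image.1 hy
      exact hit j
    have hmod : ∀ j, σ^[j] x ∈ O := by
      intro j
      have h4 : ∀ q, σ^[M * q] x = x := by
        intro q
        induction q with
        | zero => rfl
        | succ q ihq =>
          rw [Nat.mul_succ, Function.iterate_add_apply, h2 x hx, ihq]
      have h5 : σ^[j] x = σ^[j % M] x := by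
        conv_lhs => rw [← Nat.mod_add_div j M]
        rw [Function.iterate_add_apply, h4]
      rw [h5]
      exact Finset.mem_image.2 ⟨j % M, Finset.mem_range.2 (Nat.mod_lt _ hM), rfl⟩
    have hinj : Set.InjOn (fun j => σ^[j] x) (Finset.range M : Set ℕ) := by
      have key : ∀ i j, i ≤ j → j < M → σ^[i] x = σ^[j] x → i = j := by
        intro i j hij hj he
        have h4 : σ^[M - i + j] x = x := by
          rw [Function.iterate_add_apply, ← he, ← Function.iterate_add_apply,
            Nat.sub_add_cancel (by omega)]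
          exact h2 x hx
        have h5 := h3 x hx _ h4
        have h6 : M ∣ j - i := by
          have h7 : M - i + j = M + (j - i) := by omega
          rw [h7] at h5
          exact (Nat.dvd_add_right (dvd_refl M)).1 h5
        have h7 := Nat.eq_zero_of_dvd_of_lt h6 (by omega)
        omega
      intro i hi j hj he
      have hi' : i < M := Finset.mem_range.1 (Finset.mem_coe.1 hi)
      have hj' : j < M := Finset.mem_range.1 (Finset.mem_coe.1 hj)
      rcases le_total i j with h | h
      · exact key i j h hj' he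
      · exact (key j i h hi' he.symm).symm
    have hcard : O.card = M := by
      rw [hO, Finset.card_image_of_injOn hinj, Finset.card_range]
    have hlt : (S \ O).card < n := by
      rw [← hn, Finset.card_sdiff_of_subset hOS, hcard]
      have : M ≤ S.card := hcard ▸ Finset.card_le_card hOS
      omega
    obtain ⟨R, hR, hR'⟩ := ih _ hlt (S \ O) rfl (by
        intro y hy
        rw [Finset.mem_sdiff] at hy ⊢
        refine ⟨h1 y hy.1, fun h4 => hy.2 ?_⟩
        obtain ⟨j, _, hj⟩ := Finset.mem_image.1 h4
        have h5 : y = σ^[M - 1] (σ y) := by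
          rw [← Function.iterate_succ_apply, Nat.succ_eq_add_one, Nat.sub_add_cancel hM, h2 y hy.1]
        have hj' : σ^[j] x = σ y := hj
        rw [h5, ← hj', ← Function.iterate_add_apply]
        exact hmod _)
      (fun y hy => h2 y (Finset.mem_sdiff.1 hy).1) (fun y hy => h3 y (Finset.mem_sdiff.1 hy).1)
    have hxR : x ∉ R := by
      intro h
      exact (Finset.mem_sdiff.1 (hR h)).2 (hmod 0)
    refine ⟨insert x R, ?_, ?_⟩
    · intro y hy
      rcases Finset.mem_insert.1 hy with rfl | hy
      · exact hx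
      · exact (Finset.mem_sdiff.1 (hR hy)).1
    · intro f hf
      rw [Finset.sum_insert hxR, mul_add, ← hR' f (fun y hy => hf y (Finset.mem_sdiff.1 hy).1),
        ← Finset.sum_sdiff hOS, add_comm]
      congr 1
      have h5 : ∀ j, f (σ^[j] x) = f x := by
        intro j
        induction j with
        | zero => rfl
        | succ j ihj => rw [Function.iterate_succ_apply', hf _ (hit j), ihj]
      have h4 : ∀ y ∈ O, f y = f x := by
        intro y hy
        obtain ⟨j, _, rfl⟩ := Finset.mem_image.1 hy
        exact h5 j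
      rw [Finset.sum_congr rfl h4, Finset.sum_const, hcard, smul_eq_mul]

end PQ20
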