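import Pool.Agent.Helper94.PQ.Stmts
import Pool.Agent.Helper18.CP.Lin
import Pool.Agent.Helper20.PQ.ODDU1

/-!
# ODDU: one layer
-/

set_option autoImplicit false

open Module

namespace PQ20

section

variable {k U : Type} [Field k] [AddCommGroup U] [Module k U]

/-- a submodule stable under the operators: restricted joint eigenspaces -/
theorem J_restrict {E : Type} (f : E → Module.End k U) (W : Submodule k U)
    (hW : ∀ g, ∀ x ∈ W, f g x ∈ W) (χ : E → k) :
    (J (fun g => (f g).restrict (hW g)) χ).map W.subtype = W ⊓ J f χ := by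
  ext x
  rw [Submodule.mem_map, Submodule.mem_inf]
  constructor
  · rintro ⟨y, hy, rfl⟩
    refine ⟨y.2, mem_J.2 fun g => ?_⟩
    have := congrArg W.subtype (mem_J.1 hy g)
    rw [map_smul] at this
    exact this
  · rintro ⟨hx, hx'⟩
    refine ⟨⟨x, hx⟩, mem_J.2 fun g => ?_, rfl⟩
    apply Subtype.ext
    exact mem_J.1 hx' g

theorem finrank_J_restrict {E : Type} (f : E → Module.End k U) (W : Submodule k U)
    (hW : ∀ g, ∀ x ∈ W, f g x ∈ W) (χ : E → k) :
    finrank k (J (fun g => (f g).restrict (hW g)) χ) = finrank k (W ⊓ J f χ : Submodule k U) := by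
  rw [← J_restrict f W hW χ]
  exact (Submodule.finrank_map_subtype_eq W _).symm

end

/-- the data of ODDU -/
structure Dat (E : Type) [Group E] (p N : ℕ) (k U : Type) [Field k] [AddCommGroup U]
    [Module k U] (B : U →ₗ[k] U →ₗ[k] k) (r : E →* (U →ₗ[k] U)) (T : U →ₗ[k] U)
    (θ : ℕ → E → E) : Prop where
  hp : p.Prime
  hp2 : p ≠ 2
  hN : 0 < N
  hζ : ∃ ζ : k, IsPrimitiveRoot ζ p
  hB : PQ.Symm B
  h1 : ∀ g x y, B (r g x) (r g y) = B x y
  h2 : ∀ x y, B (T x) (T y) = B x y
  h3 : ∀ m g x, (T ^ m) (r g x) = r (θ m g) ((T ^ m) x)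
  h4 : ∀ g h, r (g * h) = r (h * g)
  h5 : ∀ g, r (g ^ p) = 1
  h6 : ∀ x, (∀ g, r g x = x) → x = 0
  h7 : ∀ m, N ∣ m → ∀ g, r (θ m g) = r g
  h8 : ∀ m, ¬ N ∣ m → ∀ g, ∃ h, r g = r (θ m h * h⁻¹)

section

variable {E : Type} [Group E] {p N : ℕ} {k U : Type} [Field k] [AddCommGroup U]
    [Module k U] {B : U →ₗ[k] U →ₗ[k] k} {r : E →* (U →ₗ[k] U)} {T : U →ₗ[k] U}
    {θ : ℕ → E → E}

theorem Dat.inj (D : Dat E p N k U B r T θ) (A : U →ₗ[k] U) (hA : ∀ x y, B (A x) (A y) = B x y) :
    Function.Injective A := by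
  rw [injective_iff_map_eq_zero]
  intro x hx
  refine D.hB.nondeg x fun y => ?_
  rw [← hA, hx, map_zero]

theorem Dat.isom (D : Dat E p N k U B r T θ) (m : ℕ) (x y : U) :
    B ((T ^ m) x) ((T ^ m) y) = B x y := by
  induction m generalizing x y with
  | zero => rw [pow_zero, Module.End.one_apply, Module.End.one_apply]
  | succ m ih => rw [pow_succ, Module.End.mul_apply, Module.End.mul_apply, ih, D.h2]

theorem Dat.surj [FiniteDimensional k U] (D : Dat E p N k U B r T θ) (m : ℕ) :
    Function.Surjective (T ^ m) :=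
  LinearMap.injective_iff_surjective.1 (D.inj _ (D.isom m))

theorem Dat.comm (D : Dat E p N k U B r T θ) (g h : E) : Commute (r g) (r h) := by
  show r g * r h = r h * r g
  rw [← map_mul, ← map_mul, D.h4]

theorem Dat.comp [FiniteDimensional k U] (D : Dat E p N k U B r T θ) (m n : ℕ) (g : E) :
    r (θ m (θ n g)) = r (θ (m + n) g) := by
  ext y
  obtain ⟨x, rfl⟩ := D.surj (m + n) y
  rw [← D.h3, pow_add, Module.End.mul_apply, Module.End.mul_apply, D.h3 n, D.h3 m]

/-- the inverse of a character -/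
def inv (χ : E → k) : E → k := fun g => (χ g)⁻¹

theorem inv_inv (χ : E → k) : inv (inv χ) = χ := by
  funext g
  exact _root_.inv_inv _

theorem Dat.pos (D : Dat E p N k U B r T θ) (χ : E → k) (h : J (fun g => r g) χ ≠ ⊥) :
    ∃ x, x ≠ 0 ∧ ∀ g, r g x = χ g • x := by
  obtain ⟨x, hx, hx0⟩ := (Submodule.ne_bot_iff _).1 h
  exact ⟨x, hx0, mem_J.1 hx⟩

theorem Dat.congr (D : Dat E p N k U B r T θ) (χ : E → k) (h : J (fun g => r g) χ ≠ ⊥)
    (g g' : E) (hg : r g = r g') : χ g = χ g' := by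
  obtain ⟨x, hx0, hx⟩ := D.pos χ h
  have h1 := hx g
  rw [hg, hx g'] at h1
  exact (smul_left_injective k hx0 h1).symm

theorem Dat.mul (D : Dat E p N k U B r T θ) (χ : E → k) (h : J (fun g => r g) χ ≠ ⊥)
    (g g' : E) : χ (g * g') = χ g * χ g' := by
  obtain ⟨x, hx0, hx⟩ := D.pos χ h
  have h1 := hx (g * g')
  rw [map_mul, Module.End.mul_apply, hx g', map_smul, hx g, smul_smul] at h1
  have h2 := smul_left_injective k hx0 h1
  rw [mul_comm]
  exact h2.symm

theorem Dat.one (D : Dat E p N k U B r T θ) (χ : E → k) (h : J (fun g => r g) χ ≠ ⊥) :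
    χ 1 = 1 := by
  obtain ⟨x, hx0, hx⟩ := D.pos χ h
  have h1 := hx 1
  rw [map_one, Module.End.one_apply] at h1
  have h2 : (1 : k) • x = χ 1 • x := by rw [one_smul]; exact h1
  exact (smul_left_injective k hx0 h2).symm

theorem Dat.pow (D : Dat E p N k U B r T θ) (χ : E → k) (h : J (fun g => r g) χ ≠ ⊥)
    (g : E) : (χ g) ^ p = 1 := by
  have h1 : ∀ n : ℕ, χ (g ^ n) = χ g ^ n := by
    intro n
    induction n with
    | zero => rw [pow_zero, pow_zero, D.one χ h]
    | succ n ih => rw [pow_succ, pow_succ, D.mul χ h, ih]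
  rw [← h1, D.congr χ h (g ^ p) 1 (by rw [D.h5, map_one]), D.one χ h]

theorem Dat.ne (D : Dat E p N k U B r T θ) (χ : E → k) (h : J (fun g => r g) χ ≠ ⊥)
    (g : E) : χ g ≠ 0 := by
  intro h0
  have := D.pow χ h g
  rw [h0, zero_pow D.hp.ne_zero] at this
  exact zero_ne_one this

theorem Dat.nontriv (D : Dat E p N k U B r T θ) (χ : E → k) (h : J (fun g => r g) χ ≠ ⊥)
    (h1 : ∀ g, χ g = 1) : False := by
  obtain ⟨x, hx0, hx⟩ := D.pos χ h
  exact hx0 (D.h6 x fun g => by rw [hx, h1, one_smul])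

/-- the action of the operator on characters -/
def sg (N : ℕ) (θ : ℕ → E → E) (χ : E → k) : E → k := fun g => χ (θ (N - 1) g)

theorem Dat.iter [FiniteDimensional k U] (D : Dat E p N k U B r T θ) (χ : E → k)
    (h : J (fun g => r g) χ ≠ ⊥) (j : ℕ) (g : E) :
    (sg N θ)^[j] χ g = χ (θ (j * (N - 1)) g) := by
  induction j generalizing g with
  | zero =>
    rw [Nat.zero_mul]
    exact (D.congr χ h _ _ (D.h7 0 (dvd_zero N) g)).symm
  | succ j ih =>
    rw [Function.iterate_succ_apply']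
    show (sg N θ)^[j] χ (θ (N - 1) g) = _
    rw [ih, D.congr χ h _ _ (D.comp (j * (N - 1)) (N - 1) g), Nat.succ_mul]

theorem Dat.per [FiniteDimensional k U] (D : Dat E p N k U B r T θ) (χ : E → k)
    (h : J (fun g => r g) χ ≠ ⊥) : (sg N θ)^[N] χ = χ := by
  funext g
  rw [D.iter χ h]
  exact D.congr χ h _ _ (D.h7 _ (dvd_mul_right N _) g)

/-- values of a character on the commutators determine it -/
theorem Dat.tw [FiniteDimensional k U] (D : Dat E p N k U B r T θ) (χ : E → k)
    (h : J (fun g => r g) χ ≠ ⊥) (m : ℕ) (hm : ∀ g, χ (θ m g) = χ g) : N ∣ m := by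
  by_contra h0
  refine D.nontriv χ h fun g => ?_
  obtain ⟨g', hg'⟩ := D.h8 m h0 g
  rw [D.congr χ h _ _ hg', D.mul χ h, hm, ← D.mul χ h, mul_inv_cancel, D.one χ h]

theorem dvd_aux (j : ℕ) (hN : 0 < N) (h : N ∣ j * (N - 1)) : N ∣ j := by
  have h1 : j * (N - 1) + j = N * j := by
    obtain ⟨n, rfl⟩ : ∃ n, N = n + 1 := ⟨N - 1, by omega⟩
    rw [Nat.add_sub_cancel]
    ring
  exact (Nat.dvd_add_right h).1 (h1 ▸ dvd_mul_right N j)

theorem Dat.exact [FiniteDimensional k U] (D : Dat E p N k U B r T θ) (χ : E → k)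
    (h : J (fun g => r g) χ ≠ ⊥) (j : ℕ) (hj : (sg N θ)^[j] χ = χ) : N ∣ j := by
  refine dvd_aux j D.hN (D.tw χ h _ fun g => ?_)
  rw [← D.iter χ h, hj]

theorem Dat.map_T [FiniteDimensional k U] (D : Dat E p N k U B r T θ) (χ : E → k) (x : U)
    (hx : x ∈ J (fun g => r g) χ) : T x ∈ J (fun g => r g) (sg N θ χ) := by
  rw [mem_J] at hx ⊢
  intro g
  have h1 : r g = r (θ 1 (θ (N - 1) g)) := by
    rw [D.comp, Nat.add_sub_cancel' D.hN, D.h7 N (dvd_refl N)]
  have h2 := D.h3 1 (θ (N - 1) g) x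
  rw [pow_one] at h2
  show r g (T x) = χ (θ (N - 1) g) • T x
  rw [h1, ← h2, hx, map_smul]

theorem finrank_le_map [FiniteDimensional k U] (A : U →ₗ[k] U) (hA : Function.Injective A)
    (P Q : Submodule k U) (h : ∀ x ∈ P, A x ∈ Q) : finrank k P ≤ finrank k Q := by
  rw [(Submodule.equivMapOfInjective A hA P).finrank_eq]
  refine Submodule.finrank_mono ?_
  rintro y ⟨x, hx, rfl⟩
  exact h x hx

theorem Dat.f_le [FiniteDimensional k U] (D : Dat E p N k U B r T θ) (W : Submodule k U)
    (hW : ∀ x ∈ W, T x ∈ W) (χ : E → k) :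
    finrank k (W ⊓ J (fun g => r g) χ : Submodule k U) ≤
      finrank k (W ⊓ J (fun g => r g) (sg N θ χ) : Submodule k U) := by
  refine finrank_le_map T (D.inj T D.h2) _ _ ?_
  intro x hx
  exact ⟨hW x hx.1, D.map_T χ x hx.2⟩

theorem Dat.f_le_iter [FiniteDimensional k U] (D : Dat E p N k U B r T θ) (W : Submodule k U)
    (hW : ∀ x ∈ W, T x ∈ W) (j : ℕ) (χ : E → k) :
    finrank k (W ⊓ J (fun g => r g) χ : Submodule k U) ≤
      finrank k (W ⊓ J (fun g => r g) ((sg N θ)^[j] χ) : Submodule k U) := by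
  induction j with
  | zero => exact le_refl _
  | succ j ih =>
    rw [Function.iterate_succ_apply']
    exact ih.trans (D.f_le W hW _)

theorem Dat.f_eq [FiniteDimensional k U] (D : Dat E p N k U B r T θ) (W : Submodule k U)
    (hW : ∀ x ∈ W, T x ∈ W) (χ : E → k) (h : J (fun g => r g) χ ≠ ⊥) :
    finrank k (W ⊓ J (fun g => r g) (sg N θ χ) : Submodule k U) =
      finrank k (W ⊓ J (fun g => r g) χ : Submodule k U) := by
  refine le_antisymm ?_ (D.f_le W hW χ)
  have h1 := D.f_le_iter W hW (N - 1) (sg N θ χ)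
  rw [← Function.iterate_succ_apply, Nat.succ_eq_add_one, Nat.sub_add_cancel D.hN,
    D.per χ h] at h1
  exact h1

theorem Dat.nz_T [FiniteDimensional k U] (D : Dat E p N k U B r T θ) (χ : E → k)
    (h : J (fun g => r g) χ ≠ ⊥) : J (fun g => r g) (sg N θ χ) ≠ ⊥ := by
  obtain ⟨x, hx, hx0⟩ := (Submodule.ne_bot_iff _).1 h
  refine (Submodule.ne_bot_iff _).2 ⟨T x, D.map_T χ x hx, fun h1 => hx0 ?_⟩
  exact D.inj T D.h2 (by rw [h1, map_zero])

/-- the joint eigenspaces of `χ` and its inverse are in duality -/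
theorem Dat.pair [CharZero k] [FiniteDimensional k U] (D : Dat E p N k U B r T θ) (χ : E → k)
    (y : U) (hy : y ∈ J (fun g => r g) (inv χ))
    (h : ∀ x ∈ J (fun g => r g) χ, B y x = 0) : y = 0 := by
  refine D.hB.nondeg y fun z => ?_
  obtain ⟨ζ, hζ⟩ := D.hζ
  have htop := span_top (fun g => r g) (fun g h => D.comm g h) p D.hp.pos ζ hζ
    (Nat.cast_ne_zero.2 D.hp.ne_zero) (fun g => by rw [← map_pow, D.h5])
  have hz : z ∈ ⨆ ψ, J (fun g => r g) ψ := by
    rw [htop]
    exact Submodule.mem_top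
  refine Submodule.iSup_induction (J (fun g => r g)) (motive := fun z => B z y = 0) hz ?_ ?_ ?_
  · intro ψ z hz
    by_cases hψ : ψ = χ
    · rw [D.hB.symm]
      exact h z (hψ ▸ hz)
    · obtain ⟨g, hg⟩ := Function.ne_iff.1 hψ
      have h1 := D.h1 g z y
      have h2 : r g z = ψ g • z := mem_J.1 hz g
      have h3 : r g y = (χ g)⁻¹ • y := mem_J.1 hy g
      rw [h2, h3, map_smul, map_smul, LinearMap.smul_apply, smul_eq_mul, smul_eq_mul] at h1
      by_contra h0
      have h4 : ψ g * (χ g)⁻¹ = 1 := by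
        have h5 : (ψ g * (χ g)⁻¹) * B z y = 1 * B z y := by linear_combination h1
        exact mul_right_cancel₀ h0 h5
      by_cases h5 : χ g = 0
      · rw [h5, inv_zero, mul_zero] at h4
        exact zero_ne_one h4
      · exact hg (by
          have h6 := congrArg (fun t => t * χ g) h4
          simpa [mul_assoc, inv_mul_cancel₀ h5] using h6)
  · rw [map_zero, LinearMap.zero_apply]
  · intro z z' h1 h2
    rw [map_add, LinearMap.add_apply, h1, h2, add_zero]

/-- the restriction to a joint eigenspace of an operator commuting with the action -/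
theorem restr_J (A : U →ₗ[k] U) (hc : ∀ g x, A (r g x) = r g (A x)) (χ : E → k) (x : U)
    (hx : x ∈ J (fun g => r g) χ) : A x ∈ J (fun g => r g) χ := by
  rw [mem_J] at hx ⊢
  intro g
  show r g (A x) = _
  rw [← hc]
  have h1 : r g x = χ g • x := hx g
  rw [h1, map_smul]

theorem finrank_ker_restr (A : U →ₗ[k] U) (P : Submodule k U) (hP : ∀ x ∈ P, A x ∈ P) :
    finrank k (LinearMap.ker (A.restrict hP - 1)) =
      finrank k (LinearMap.ker (A - 1) ⊓ P : Submodule k U) := by
  rw [← Submodule.finrank_map_subtype_eq P (LinearMap.ker (A.restrict hP - 1))]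
  have : (LinearMap.ker (A.restrict hP - 1)).map P.subtype = LinearMap.ker (A - 1) ⊓ P := by
    ext x
    rw [Submodule.mem_map, Submodule.mem_inf, LinearMap.mem_ker]
    constructor
    · rintro ⟨y, hy, rfl⟩
      refine ⟨?_, y.2⟩
      have := congrArg P.subtype (LinearMap.mem_ker.1 hy)
      rw [map_zero] at this
      exact this
    · rintro ⟨h1, h2⟩
      refine ⟨⟨x, h2⟩, LinearMap.mem_ker.2 (Subtype.ext h1), rfl⟩
  rw [this]

theorem Dat.dual_le [CharZero k] [FiniteDimensional k U] (D : Dat E p N k U B r T θ)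
    (A : U →ₗ[k] U) (hA : ∀ x y, B (A x) (A y) = B x y) (hc : ∀ g x, A (r g x) = r g (A x))
    (χ : E → k) :
    finrank k (LinearMap.ker (A - 1) ⊓ J (fun g => r g) (inv χ) : Submodule k U) ≤
      finrank k (LinearMap.ker (A - 1) ⊓ J (fun g => r g) χ : Submodule k U) := by
  set X : Submodule k U := J (fun g => r g) χ with hX
  set K : Submodule k U := LinearMap.ker (A - 1) ⊓ J (fun g => r g) (inv χ) with hK
  have hAX : ∀ x ∈ X, A x ∈ X := restr_J A hc χ
  set a : X →ₗ[k] X := A.restrict hAX with ha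
  set Φ : Submodule k X := LinearMap.range (a - 1) with hΦ
  let φ : K →ₗ[k] Module.Dual k X := (B.domRestrict₁₂ K X)
  have hφ : ∀ (y : K) (x : X), φ y x = B y x := fun y x => rfl
  have hmem : ∀ y : K, φ y ∈ Φ.dualAnnihilator := by
    intro y
    rw [Submodule.mem_dualAnnihilator]
    rintro w ⟨x, rfl⟩
    rw [hφ]
    have h1 : A (y : U) = y := by
      have := LinearMap.mem_ker.1 y.2.1
      rw [LinearMap.sub_apply, Module.End.one_apply, sub_eq_zero] at this
      exact this
    have h2 : (((a - 1) x : X) : U) = A (x : U) - x := rfl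
    rw [h2, map_sub]
    conv_lhs => rw [← h1]
    rw [hA, h1, sub_self]
  have hinj : Function.Injective (φ.codRestrict Φ.dualAnnihilator hmem) := by
    rw [injective_iff_map_eq_zero]
    intro y hy
    apply Subtype.ext
    refine D.pair χ y y.2.2 fun x hx => ?_
    have h1 : φ y = 0 := congrArg Subtype.val hy
    rw [← hφ y ⟨x, hx⟩, h1, LinearMap.zero_apply]
  have h1 := LinearMap.finrank_le_finrank_of_injective hinj
  have h2 := Subspace.finrank_add_finrank_dualAnnihilator_eq Φ
  have h3 := LinearMap.finrank_range_add_finrank_ker (a - 1)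
  have h4 := finrank_ker_restr A X hAX
  rw [← h4]
  rw [← ha]
  rw [← hΦ] at h3
  omega

theorem Dat.dual_eq [CharZero k] [FiniteDimensional k U] (D : Dat E p N k U B r T θ)
    (A : U →ₗ[k] U) (hA : ∀ x y, B (A x) (A y) = B x y) (hc : ∀ g x, A (r g x) = r g (A x))
    (χ : E → k) :
    finrank k (LinearMap.ker (A - 1) ⊓ J (fun g => r g) (inv χ) : Submodule k U) =
      finrank k (LinearMap.ker (A - 1) ⊓ J (fun g => r g) χ : Submodule k U) := by
  refine le_antisymm (D.dual_le A hA hc χ) ?_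
  have := D.dual_le A hA hc (inv χ)
  rw [inv_inv] at this
  exact this

theorem ker_one_sub : LinearMap.ker ((1 : U →ₗ[k] U) - 1) = ⊤ := by
  rw [sub_self]
  exact LinearMap.ker_zero

theorem Dat.dual_eq' [CharZero k] [FiniteDimensional k U] (D : Dat E p N k U B r T θ)
    (χ : E → k) :
    finrank k (J (fun g => r g) (inv χ) : Submodule k U) =
      finrank k (J (fun g => r g) χ : Submodule k U) := by
  have := D.dual_eq 1 (fun x y => rfl) (fun g x => rfl) χ
  rw [ker_one_sub, top_inf_eq, top_inf_eq] at this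
  exact this

theorem Dat.nz_inv [CharZero k] [FiniteDimensional k U] (D : Dat E p N k U B r T θ)
    (χ : E → k) (h : J (fun g => r g) χ ≠ ⊥) : J (fun g => r g) (inv χ) ≠ ⊥ := by
  intro h0
  apply h
  have := D.dual_eq' χ
  rw [h0, finrank_bot] at this
  exact Submodule.finrank_eq_zero.1 this.symm

theorem Dat.commN (D : Dat E p N k U B r T θ) (g : E) (x : U) :
    (T ^ N) (r g x) = r g ((T ^ N) x) := by
  rw [D.h3, D.h7 N (dvd_refl N)]

/-- even `N` -/
theorem Dat.even [CharZero k] [FiniteDimensional k U] (D : Dat E p N k U B r T θ)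
    (m : ℕ) (hm : N = 2 * m) (h9 : ∀ g, r (θ m g * g) = 1)
    (χ : E → k) (h : J (fun g => r g) χ ≠ ⊥) :
    Even (finrank k (J (fun g => r g) χ : Submodule k U) +
      finrank k (LinearMap.ker (T ^ N - 1) ⊓ J (fun g => r g) χ : Submodule k U)) := by
  set X : Submodule k U := J (fun g => r g) χ with hX
  have hAX : ∀ x ∈ X, (T ^ N) x ∈ X := restr_J (T ^ N) D.commN χ
  set a : X →ₗ[k] X := (T ^ N).restrict hAX with ha
  let C : X →ₗ[k] X →ₗ[k] k := LinearMap.mk₂ k (fun x y => B (y : U) ((T ^ m) (x : U)))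
    (fun x x' y => by simp) (fun c x y => by simp) (fun x y y' => by simp)
    (fun c x y => by simp)
  have hC : ∀ x y : X, C x y = B (y : U) ((T ^ m) (x : U)) := fun x y => rfl
  have hTm : ∀ x ∈ X, (T ^ m) x ∈ J (fun g => r g) (inv χ) := by
    intro x hx
    rw [mem_J]
    intro g
    have hx' : r g x = χ g • x := mem_J.1 hx g
    have h1 : r g ((T ^ m) (r g x)) = (T ^ m) x := by
      rw [D.h3, ← Module.End.mul_apply, ← map_mul, D.h4, h9, Module.End.one_apply]
    rw [hx', map_smul, map_smul] at h1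
    show r g ((T ^ m) x) = (χ g)⁻¹ • (T ^ m) x
    rw [eq_inv_smul_iff₀ (D.ne χ h g), h1]
  have hmap : X.map (T ^ m) = J (fun g => r g) (inv χ) := by
    refine Submodule.eq_of_le_of_finrank_eq ?_ ?_
    · rintro y ⟨x, hx, rfl⟩
      exact hTm x hx
    · rw [D.dual_eq' χ, ← (Submodule.equivMapOfInjective (T ^ m) (D.inj _ (D.isom m)) X).finrank_eq]
  have h1 := CP18.even_rank_asymmetry (two_ne_zero) C (by
    intro y hy
    apply Subtype.ext
    refine D.pair (inv χ) y ?_ ?_
    · rw [inv_inv]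
      exact y.2
    · intro z hz
      rw [← hmap] at hz
      obtain ⟨x, hx, rfl⟩ := hz
      exact hy ⟨x, hx⟩) a (by
    intro x y
    rw [hC, hC]
    have h2 : ((a y : X) : U) = (T ^ m) ((T ^ m) (y : U)) := by
      rw [← Module.End.mul_apply, ← pow_add, ← two_mul, ← hm]
      rfl
    rw [h2, D.isom, D.hB.symm])
  have h3 := LinearMap.finrank_range_add_finrank_ker (a - 1)
  have h4 := finrank_ker_restr (T ^ N) X hAX
  rw [← ha] at h4
  rw [← h4]
  obtain ⟨c, hc⟩ := h1
  refine ⟨c + finrank k (LinearMap.ker (a - 1)), ?_⟩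
  omega

/-- the fixed space of `T` -/
theorem Dat.fix [Finite E] [CharZero k] [FiniteDimensional k U] (D : Dat E p N k U B r T θ) :
    N * finrank k (LinearMap.ker (T - 1)) = finrank k (LinearMap.ker (T ^ N - 1)) := by
  classical
  set W : Submodule k U := LinearMap.ker (T ^ N - 1) with hW
  have hWm : ∀ x, x ∈ W ↔ (T ^ N) x = x := by
    intro x
    rw [hW, LinearMap.mem_ker, LinearMap.sub_apply, Module.End.one_apply, sub_eq_zero]
  have hr : ∀ g, ∀ x ∈ W, r g x ∈ W := by
    intro g x hx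
    rw [hWm] at hx ⊢
    rw [D.commN, hx]
  have hT : ∀ x ∈ W, T x ∈ W := by
    intro x hx
    rw [hWm] at hx ⊢
    rw [← Module.End.mul_apply, ← pow_succ, pow_succ', Module.End.mul_apply, hx]
  set T' : W →ₗ[k] W := T.restrict hT with hT'
  have hpow : ∀ (j : ℕ) (x : W), (((T' ^ j) x : W) : U) = (T ^ j) (x : U) := by
    intro j
    induction j with
    | zero => intro x; rfl
    | succ j ih =>
      intro x
      rw [pow_succ, Module.End.mul_apply, ih, pow_succ, Module.End.mul_apply]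
      rfl
  have hfix : LinearMap.ker (T - 1) ⊓ W = LinearMap.ker (T - 1) := by
    refine inf_eq_left.2 fun x hx => ?_
    rw [LinearMap.mem_ker, LinearMap.sub_apply, Module.End.one_apply, sub_eq_zero] at hx
    rw [hWm]
    have : ∀ j : ℕ, (T ^ j) x = x := by
      intro j
      induction j with
      | zero => rfl
      | succ j ih => rw [pow_succ, Module.End.mul_apply, hx, ih]
    exact this N
  have h1 := finrank_ker_restr T W hT
  rw [hfix, ← hT'] at h1
  rw [← h1]
  obtain ⟨ζ, hζ⟩ := D.hζ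
  refine finrank_fix T' N D.hN ?_ ?_
  · ext x
    rw [hpow, Module.End.one_apply]
    exact (hWm x).1 x.2
  · intro j hj hjN
    set f : E → Module.End k W := fun g => (r g).restrict (hr g) with hf
    have hint := internal f (fun g h => by
        show f g * f h = f h * f g
        ext x
        have := congrArg (fun F : U →ₗ[k] U => F (x : U)) (D.comm g h).eq
        exact this) p D.hp.pos ζ hζ (Nat.cast_ne_zero.2 D.hp.ne_zero) (by
        intro g
        ext x
        have h2 : ∀ (n : ℕ) (x : W), (((f g ^ n) x : W) : U) = (r g ^ n) (x : U) := by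
          intro n
          induction n with
          | zero => intro x; rfl
          | succ n ih =>
            intro x
            rw [pow_succ, Module.End.mul_apply, ih, pow_succ, Module.End.mul_apply]
            rfl
        rw [h2, ← map_pow, D.h5]
        rfl)
    have hJ : ∀ χ (x : W), x ∈ J f χ ↔ (x : U) ∈ J (fun g => r g) χ := by
      intro χ x
      rw [mem_J, mem_J]
      refine forall_congr' fun g => ?_
      constructor
      · intro h
        exact congrArg Subtype.val h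
      · intro h
        exact Subtype.ext h
    refine trace_zero (J f) hint (fun χ g => χ g + 1) ((sg N θ)^[j]) ?_ ?_ _ ?_
    · intro χ h
      have := congrFun h 1
      simp at this
    · intro χ hχ h
      have h2 : J (fun g => r g) χ ≠ ⊥ := by
        obtain ⟨x, hx, hx0⟩ := (Submodule.ne_bot_iff _).1 hχ
        refine (Submodule.ne_bot_iff _).2 ⟨x, (hJ χ x).1 hx, fun h0 => hx0 ?_⟩
        exact Subtype.ext h0
      exact absurd (Nat.le_of_dvd hj (D.exact χ h2 j h)) (not_le.2 hjN)
    · intro χ _ x hx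
      rw [hJ] at hx ⊢
      rw [hpow]
      clear hj hjN
      induction j with
      | zero => exact hx
      | succ j ih =>
        rw [Function.iterate_succ_apply', pow_succ', Module.End.mul_apply]
        exact D.map_T _ _ ih

end

section

variable {E : Type} [Group E] {p N : ℕ} {k U : Type} [Field k] [AddCommGroup U]
    [Module k U] {B : U →ₗ[k] U →ₗ[k] k} {r : E →* (U →ₗ[k] U)} {T : U →ₗ[k] U}
    {θ : ℕ → E → E}

theorem Dat.sumW [CharZero k] [FiniteDimensional k U] (D : Dat E p N k U B r T θ)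
    (W : Submodule k U) (hr : ∀ g, ∀ x ∈ W, r g x ∈ W) (S : Finset (E → k))
    (hS : ∀ χ, J (fun g => r g) χ ≠ ⊥ → χ ∈ S) :
    finrank k W = ∑ χ ∈ S, finrank k (W ⊓ J (fun g => r g) χ : Submodule k U) := by
  classical
  obtain ⟨ζ, hζ⟩ := D.hζ
  set f : E → Module.End k W := fun g => (r g).restrict (hr g) with hf
  have hint := internal f (fun g h => by
      show f g * f h = f h * f g
      ext x
      have := congrArg (fun F : U →ₗ[k] U => F (x : U)) (D.comm g h).eq
      exact this) p D.hp.pos ζ hζ (Nat.cast_ne_zero.2 D.hp.ne_zero) (by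
      intro g
      ext x
      have h2 : ∀ (n : ℕ) (x : W), (((f g ^ n) x : W) : U) = (r g ^ n) (x : U) := by
        intro n
        induction n with
        | zero => intro x; rfl
        | succ n ih =>
          intro x
          rw [pow_succ, Module.End.mul_apply, ih, pow_succ, Module.End.mul_apply]
          rfl
      rw [h2, ← map_pow, D.h5]
      rfl)
  rw [fin_sum (J f) hint S]
  · refine Finset.sum_congr rfl fun χ _ => ?_
    exact finrank_J_restrict (fun g => r g) W hr χ
  · intro χ hχ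
    apply hS
    obtain ⟨x, hx, hx0⟩ := (Submodule.ne_bot_iff _).1 hχ
    refine (Submodule.ne_bot_iff _).2 ⟨x, ?_, fun h0 => hx0 (Subtype.ext h0)⟩
    rw [mem_J] at hx ⊢
    intro g
    exact congrArg Subtype.val (hx g)

theorem sg_inv (χ : E → k) : sg N θ (inv χ) = inv (sg N θ χ) := rfl

theorem Dat.nontriv2 (D : Dat E p N k U B r T θ) (χ : E → k)
    (h : J (fun g => r g) χ ≠ ⊥) (h1 : inv χ = χ) : False := by
  refine D.nontriv χ h fun g => ?_
  have h2 : (χ g)⁻¹ = χ g := congrFun h1 g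
  have h3 : χ g * χ g = 1 := by
    have h4 := mul_inv_cancel₀ (D.ne χ h g)
    rw [h2] at h4
    exact h4
  obtain ⟨q, hq⟩ := D.hp.odd_of_ne_two D.hp2
  have h4 := D.pow χ h g
  rw [hq, pow_succ, pow_mul, pow_two, h3, one_pow, one_mul] at h4
  exact h4

end

end PQ20

theorem PQ.oddu : PQ.ST_ODDU := by
  classical
  intro E _ _ p N hp hp2 hN k U _ _ _ _ _ ζ hζ B hB r T θ h1 h2 h3 h4 h5 h6 h7 h8 h9
  have D : PQ20.Dat E p N k U B r T θ :=
    ⟨hp, hp2, hN, ⟨ζ, hζ⟩, hB, h1, h2, h3, h4, h5, h6, h7, h8⟩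
  set JJ : (E → k) → Submodule k U := PQ20.J (fun g => r g) with hJJ
  have hfin := WellFoundedGT.finite_ne_bot_of_iSupIndep
    (PQ20.indep (fun g => r g) (fun g h => D.comm g h))
  set S : Finset (E → k) := hfin.toFinset with hS
  have hmem : ∀ χ, χ ∈ S ↔ JJ χ ≠ ⊥ := fun χ => Set.Finite.mem_toFinset hfin
  set W : Submodule k U := LinearMap.ker (T ^ N - 1) with hW
  have hWm : ∀ x, x ∈ W ↔ (T ^ N) x = x := by
    intro x
    rw [hW, LinearMap.mem_ker, LinearMap.sub_apply, Module.End.one_apply, sub_eq_zero]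
  have hr : ∀ g, ∀ x ∈ W, r g x ∈ W := by
    intro g x hx
    rw [hWm] at hx ⊢
    rw [D.commN, hx]
  have hT : ∀ x ∈ W, T x ∈ W := by
    intro x hx
    rw [hWm] at hx ⊢
    rw [← Module.End.mul_apply, ← pow_succ, pow_succ', Module.End.mul_apply, hx]
  have hU : finrank k U = ∑ χ ∈ S, finrank k (JJ χ) := by
    have := D.sumW ⊤ (fun _ _ _ => Submodule.mem_top) S (fun χ h => (hmem χ).2 h)
    rw [finrank_top] at this
    rw [this]
    exact Finset.sum_congr rfl fun χ _ => by rw [top_inf_eq]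
  have hWs : finrank k W = ∑ χ ∈ S, finrank k (W ⊓ JJ χ : Submodule k U) :=
    D.sumW W hr S (fun χ h => (hmem χ).2 h)
  have hfix : N * finrank k (LinearMap.ker (T - 1)) = finrank k W := D.fix
  have e1 : ∀ χ, JJ χ ≠ ⊥ → finrank k (JJ (PQ20.sg N θ χ)) = finrank k (JJ χ) := by
    intro χ h
    have := D.f_eq ⊤ (fun _ _ => Submodule.mem_top) χ h
    rw [top_inf_eq, top_inf_eq] at this
    exact this
  have e2 : ∀ χ, JJ χ ≠ ⊥ → finrank k (W ⊓ JJ (PQ20.sg N θ χ) : Submodule k U) =
      finrank k (W ⊓ JJ χ : Submodule k U) := fun χ h => D.f_eq W hT χ h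
  rcases Nat.even_or_odd N with hev | hodd
  · obtain ⟨m, hm⟩ := hev
    have hm2 : N = 2 * m := by omega
    obtain ⟨R, hR, hR'⟩ := PQ20.cyc (PQ20.sg N θ) N hN S.card S rfl
      (fun χ h => (hmem _).2 (D.nz_T χ ((hmem _).1 h)))
      (fun χ h => D.per χ ((hmem _).1 h))
      (fun χ h j hj => D.exact χ ((hmem _).1 h) j hj)
    refine ⟨∑ χ ∈ R, finrank k (JJ χ), ?_, ?_, ?_⟩
    · rw [hU]
      exact hR' (fun χ => finrank k (JJ χ)) (fun χ h => e1 χ ((hmem _).1 h))
    · intro _
      have h10 := hR' (fun χ => finrank k (W ⊓ JJ χ : Submodule k U))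
        (fun χ h => e2 χ ((hmem _).1 h))
      rw [← hWs, ← hfix] at h10
      have h11 := Nat.eq_of_mul_eq_mul_left hN h10
      rw [h11, ← Finset.sum_add_distrib]
      refine Finset.even_sum _ fun χ hχ => ?_
      exact D.even m hm2 (h9 m hm2) χ ((hmem _).1 (hR hχ))
    · intro h
      exact absurd ⟨m, hm⟩ h
  · have hcm : Function.Commute (PQ20.sg N θ) (PQ20.inv (k := k) (E := E)) := fun χ => rfl
    have hit : ∀ j (χ : E → k), (fun χ : E → k => PQ20.sg N θ (PQ20.inv χ))^[j] χ =
        (PQ20.inv)^[j] ((PQ20.sg N θ)^[j] χ) := by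
      intro j χ
      have h10 := (hcm.symm.comp_iterate j)
      have h11 : (fun χ : E → k => PQ20.sg N θ (PQ20.inv χ)) =
        (PQ20.inv ∘ PQ20.sg N θ) := rfl
      rw [h11, h10]
      rfl
    have hinvol : Function.Involutive (PQ20.inv (k := k) (E := E)) := PQ20.inv_inv
    have hper : ∀ χ, JJ χ ≠ ⊥ → ∀ q, (PQ20.sg N θ)^[N * q] χ = χ := by
      intro χ h q
      induction q with
      | zero => rfl
      | succ q ih => rw [Nat.mul_succ, Function.iterate_add_apply, D.per χ h, ih]
    obtain ⟨R, hR, hR'⟩ := PQ20.cyc (fun χ : E → k => PQ20.sg N θ (PQ20.inv χ)) (2 * N)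
      (by omega) S.card S rfl
      (fun χ h => (hmem _).2 (D.nz_T _ (D.nz_inv χ ((hmem _).1 h))))
      (fun χ h => by
        rw [hit, hinvol.iterate_even (even_two_mul N), id, mul_comm 2 N]
        exact hper χ ((hmem _).1 h) 2)
      (fun χ h j hj => by
        have hχ := (hmem _).1 h
        have hNj : N ∣ j := by
          have h10 : (fun χ : E → k => PQ20.sg N θ (PQ20.inv χ))^[2 * j] χ = χ := by
            rw [two_mul, Function.iterate_add_apply, hj, hj]
          rw [hit, hinvol.iterate_even (even_two_mul j), id] at h10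
          exact ((Nat.coprime_two_right.2 hodd)).dvd_of_dvd_mul_left (D.exact χ hχ _ h10)
        have h2j : 2 ∣ j := by
          rw [← even_iff_two_dvd]
          by_contra h10
          rw [Nat.not_even_iff_odd] at h10
          obtain ⟨q, hq⟩ := hNj
          rw [hit, hinvol.iterate_odd h10, hq, hper χ hχ] at hj
          exact D.nontriv2 χ hχ hj
        exact Nat.Coprime.mul_dvd_of_dvd_of_dvd (Nat.coprime_two_left.2 hodd) h2j hNj)
    have e3 : ∀ χ ∈ S, finrank k (JJ (PQ20.sg N θ (PQ20.inv χ))) = finrank k (JJ χ) := by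
      intro χ h
      rw [e1 _ (D.nz_inv χ ((hmem _).1 h))]
      exact D.dual_eq' χ
    have e4 : ∀ χ ∈ S, finrank k (W ⊓ JJ (PQ20.sg N θ (PQ20.inv χ)) : Submodule k U) =
        finrank k (W ⊓ JJ χ : Submodule k U) := by
      intro χ h
      rw [e2 _ (D.nz_inv χ ((hmem _).1 h))]
      exact D.dual_eq (T ^ N) (D.isom N) D.commN χ
    refine ⟨2 * ∑ χ ∈ R, finrank k (JJ χ), ?_, ?_, ?_⟩
    · rw [hU, hR' (fun χ => finrank k (JJ χ)) e3]
      ring
    · intro h
      exact absurd h (Nat.not_even_iff_odd.2 hodd)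
    · intro _
      refine ⟨even_two_mul _, ?_⟩
      have h10 := hR' (fun χ => finrank k (W ⊓ JJ χ : Submodule k U)) e4
      rw [← hWs, ← hfix, mul_comm 2 N, mul_assoc] at h10
      rw [Nat.eq_of_mul_eq_mul_left hN h10]
      exact even_two_mul _
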